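import Pool.Agent.Helper49.Age.Main3
import Pool.Agent.Helper49.Age.Lap

/-!
# MP_87e96d_pr: the first difference is at the maximum of the support

If `ν₁ = ν₂` above `x` and `x` is below the common maximum `S` of the supports, then for large charge `V` the
potential of a minimiser is `V u` on `[0,x]` up to an exponentially small error, and the inequality
`min_ineq` in both directions bounds `∫ e^{V u} d(ν₁ - ν₂)` by `C e^{V (x - κ)}`; with `lap` this gives
`ν₁ = ν₂` above `x - κ`.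
-/

set_option autoImplicit false

namespace Pool.Agent.Age

open MeasureTheory

variable {R : ℝ} {ν ν₁ ν₂ : Measure (K R)} [IsFiniteMeasure ν] [IsFiniteMeasure ν₁] [IsFiniteMeasure ν₂]

/-- concentration, with almost all the charge -/
theorem top_conc (hR : 0 ≤ R) (hν : ν ≠ 0) {S : ℝ} (hS0 : 0 ≤ S) (hSR : S ≤ R) (hS : tn ν S = 0)
    (hpos : ∀ s, s < S → 0 < tn ν s) {x : ℝ} (hx0 : 0 ≤ x) (hxS : x < S) {η : ℝ} (hη0 : 0 < η)
    (hη1 : η ≤ 1) :
    ∃ V₀ : ℝ, 0 < V₀ ∧ ∀ V, V₀ ≤ V → ∀ f, Min ν V f → (1 - η) * V ≤ tl ν f x := by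
  set s : ℝ := S - (S - x) * η ^ 2 / 2 with hs
  have hSx : 0 < S - x := by linarith
  have hη2 : 0 < η ^ 2 := by positivity
  have hη21 : η ^ 2 ≤ 1 := by nlinarith
  have hsS : s < S := by
    rw [hs]
    have := mul_pos hSx hη2
    linarith
  have hs0 : 0 ≤ s := by
    rw [hs]
    nlinarith
  set s' : K R := ⟨s, hs0, hsS.le.trans hSR⟩ with hs'
  have hq : 0 < ν.real {u : K R | (s' : ℝ) ≤ u} := by
    refine (hpos s hsS).trans_le (measureReal_mono ?_)
    intro u hu
    change s ≤ (u : ℝ)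
    exact le_of_lt (show s < (u : ℝ) from hu)
  set q : ℝ := ν.real {u : K R | (s' : ℝ) ≤ u} with hqdef
  set n : ℝ := ν.real Set.univ with hn
  have hc : 0 < (S - x) * η ^ 2 / 4 := by positivity
  obtain ⟨V₀, hV1, hV2⟩ : ∃ V : ℝ, 0 < V ∧ Real.log n - Real.log q < V * ((S - x) * η ^ 2 / 4) := by
    have h3 : Filter.Tendsto (fun V : ℝ => V * ((S - x) * η ^ 2 / 4)) Filter.atTop Filter.atTop :=
      Filter.tendsto_id.atTop_mul_const hc
    exact ((Filter.eventually_gt_atTop 0).and (h3.eventually_gt_atTop _)).exists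
  refine ⟨V₀, hV1, fun V hV f hf => ?_⟩
  have hVpos : 0 < V := hV1.trans_le hV
  by_contra hlt
  push Not at hlt
  have e1 := lam_ge hR hν hVpos hf.nonneg hf.mass hS0 hSR hS hx0 hxS.le
  have e2 := lam_le hR hν hVpos hf s' hq
  have e3 := e1.trans e2
  have e4 : η ^ 2 * V ^ 2 ≤ (V - tl ν f x) ^ 2 := by
    have h1 : η * V ≤ V - tl ν f x := by linarith
    have h2 : 0 ≤ η * V := by positivity
    have h3 := mul_self_le_mul_self h2 h1
    nlinarith
  have e5 : (S - x) * (η ^ 2 * V ^ 2) ≤ (S - x) * (V - tl ν f x) ^ 2 :=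
    mul_le_mul_of_nonneg_left e4 hSx.le
  have e6 : (s' : ℝ) = S - (S - x) * η ^ 2 / 2 := rfl
  rw [e6] at e3
  have e7 : V * (V * ((S - x) * η ^ 2 / 4)) ≤ V * (Real.log n - Real.log q) := by nlinarith
  have e8 := le_of_mul_le_mul_left e7 hVpos
  have e9 : V₀ * ((S - x) * η ^ 2 / 4) ≤ V * ((S - x) * η ^ 2 / 4) :=
    mul_le_mul_of_nonneg_right hV hc.le
  linarith

/-- lower bound of the integral of `e^φ` -/
theorem top_Z (hR : 0 ≤ R) (hν : ν ≠ 0) {S : ℝ} (hS0 : 0 < S) (hSR : S ≤ R) (hS : tn ν S = 0)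
    (hpos : ∀ s, s < S → 0 < tn ν s) {ε : ℝ} (hε : 0 < ε) (hεS : ε ≤ S) :
    ∃ V₀ c : ℝ, 0 < V₀ ∧ 0 < c ∧ ∀ V, V₀ ≤ V → ∀ f, Min ν V f →
      c * Real.exp (V * (S - ε)) ≤ la ν (ex (op kM ν f)) := by
  set x : ℝ := S - ε / 2 with hx
  have hx0 : 0 ≤ x := by rw [hx]; linarith
  have hxS : x < S := by rw [hx]; linarith
  have hxR : x ≤ R := hxS.le.trans hSR
  obtain ⟨V₀, hV₀, hc⟩ := top_conc hR hν hS0.le hSR hS hpos hx0 hxS (η := ε / (2 * S)) (by positivity)
    (by rw [div_le_one (by linarith)]; linarith)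
  refine ⟨V₀, tn ν x, hV₀, hpos x hxS, fun V hV f hf => ?_⟩
  have hVpos : 0 < V := hV₀.trans_le hV
  have h1 := hc V hV f hf
  have hη : (1 - ε / (2 * S)) * S = S - ε / 2 := by
    field_simp
  have hη0 : 0 ≤ 1 - ε / (2 * S) := by
    rw [sub_nonneg, div_le_one (by linarith)]
    linarith
  -- the potential above `x`
  have h2 : ∀ u : K R, x < (u : ℝ) → V * (S - ε) ≤ op kM ν f u := by
    intro u hu
    rw [op_eq]
    have hi : ∀ a b : ℝ, IntervalIntegrable (tl ν f) volume a b := fun a b => Layer_intble f a b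
    rw [← intervalIntegral.integral_add_adjacent_intervals (hi 0 x) (hi x u)]
    have e1 : 0 ≤ ∫ t in x..(u : ℝ), tl ν f t :=
      intervalIntegral.integral_nonneg hu.le fun t _ => tl_nonneg f hf.nonneg t
    have e2 : x * ((1 - ε / (2 * S)) * V) ≤ ∫ t in (0 : ℝ)..x, tl ν f t := by
      have e3 : ∫ t in (0 : ℝ)..x, ((1 - ε / (2 * S)) * V) = x * ((1 - ε / (2 * S)) * V) := by
        rw [intervalIntegral.integral_const, smul_eq_mul, sub_zero]
      rw [← e3]
      refine intervalIntegral.integral_mono_on hx0 intervalIntegrable_const (hi 0 x) fun t ht => ?_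
      exact h1.trans (tl_anti f hf.nonneg ht.2)
    have e4 : V * (S - ε) ≤ x * ((1 - ε / (2 * S)) * V) := by
      have e5 : x * (1 - ε / (2 * S)) = S - ε / 2 - ε / 2 * (1 - ε / (2 * S)) := by
        rw [hx, sub_mul, mul_comm S, hη]
      have e6 : ε / 2 * (1 - ε / (2 * S)) ≤ ε / 2 := by
        have : 0 < ε / (2 * S) := by positivity
        nlinarith
      have e7 : S - ε ≤ x * (1 - ε / (2 * S)) := by linarith
      calc V * (S - ε) ≤ V * (x * (1 - ε / (2 * S))) := mul_le_mul_of_nonneg_left e7 hVpos.le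
        _ = x * ((1 - ε / (2 * S)) * V) := by ring
    linarith
  have hm := Layer_set (R := R) x
  calc tn ν x * Real.exp (V * (S - ε))
      = ∫ u in {u : K R | x < (u : ℝ)}, Real.exp (V * (S - ε)) ∂ν := by
        rw [setIntegral_const, smul_eq_mul, tn]
    _ ≤ ∫ u in {u : K R | x < (u : ℝ)}, ex (op kM ν f) u ∂ν := by
        refine setIntegral_mono_on (integrable_const _).integrableOn
          (integrable_cm ν _).integrableOn hm fun u hu => ?_
        rw [ex_apply]
        exact Real.exp_le_exp.mpr (h2 u hu)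
    _ ≤ la ν (ex (op kM ν f)) := by
        rw [la_apply]
        refine setIntegral_le_integral (integrable_cm ν _) ?_
        exact Filter.Eventually.of_forall fun u => (Real.exp_pos _).le

/-- the potential of a minimiser on `[0,x]` -/
theorem top_phi (hR : 0 ≤ R) (hν : ν ≠ 0) {V : ℝ} (hV : 0 < V) {f : C(K R, ℝ)} (hf : Min ν V f)
    {x : ℝ} (hx0 : 0 ≤ x) (u : K R) (hu : (u : ℝ) ≤ x) :
    op kM ν f u ≤ V * u ∧
      V * u - x * (V / la ν (ex (op kM ν f)) * Real.exp (V * x) * ν.real Set.univ) ≤ op kM ν f u := by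
  obtain ⟨a, w, hw1, hw2, hw3, -⟩ := min_fix hR hν hV hf
  have hu0 : 0 ≤ (u : ℝ) := u.2.1
  have hZ := la_ex_pos hν (op kM ν f)
  have hup : ∀ y : K R, op kM ν f y ≤ V * y := by
    intro y
    rw [op_eq]
    have hi : IntervalIntegrable (tl ν f) volume 0 y := Layer_intble f _ _
    have e1 : ∫ t in (0 : ℝ)..y, V = V * y := by
      rw [intervalIntegral.integral_const, smul_eq_mul, sub_zero, mul_comm]
    rw [← e1]
    refine intervalIntegral.integral_mono_on y.2.1 hi intervalIntegrable_const fun t _ => ?_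
    exact (tl_le f hf.nonneg t).trans hf.mass.le
  refine ⟨hup u, ?_⟩
  -- `e^a`
  have hex : ex w = Real.exp a • ex (op kM ν f) := by
    ext y
    change Real.exp (w y) = Real.exp a * Real.exp (op kM ν f y)
    rw [← Real.exp_add, hw1]
    rfl
  have ha : Real.exp a = V / la ν (ex (op kM ν f)) := by
    rw [eq_div_iff hZ.ne', ← hw3, hex, map_smul, smul_eq_mul]
  have hsame : op kM ν f = op kM ν (ex w) := by
    have h1 : cst a + op kM ν f = cst a + op kM ν (ex w) := by rw [← hw1, ← hw2]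
    exact add_left_cancel h1
  have hnn : (0 : C(K R, ℝ)) ≤ ex w := fun y => (Real.exp_pos _).le
  have hm : MeasurableSet {y : K R | x < (y : ℝ)} := Layer_set x
  -- the charge on `[0,x]`
  have hch : V - tl ν (ex w) x ≤
      V / la ν (ex (op kM ν f)) * Real.exp (V * x) * ν.real Set.univ := by
    have e1 : tl ν (ex w) x + ∫ y in {y : K R | x < (y : ℝ)}ᶜ, ex w y ∂ν = V := by
      unfold tl
      rw [integral_add_compl hm (integrable_cm ν _), ← la_apply, hw3]
    have e2 : ∫ y in {y : K R | x < (y : ℝ)}ᶜ, ex w y ∂ν ≤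
        ∫ y in {y : K R | x < (y : ℝ)}ᶜ, Real.exp a * Real.exp (V * x) ∂ν := by
      refine setIntegral_mono_on (integrable_cm ν _).integrableOn
        (integrable_const _).integrableOn hm.compl fun y hy => ?_
      have hyx : (y : ℝ) ≤ x := not_lt.mp hy
      rw [hex]
      change Real.exp a * Real.exp (op kM ν f y) ≤ _
      refine mul_le_mul_of_nonneg_left (Real.exp_le_exp.mpr ?_) (Real.exp_pos _).le
      exact (hup y).trans (mul_le_mul_of_nonneg_left hyx hV.le)
    have e3 : ∫ y in {y : K R | x < (y : ℝ)}ᶜ, Real.exp a * Real.exp (V * x) ∂ν ≤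
        Real.exp a * Real.exp (V * x) * ν.real Set.univ := by
      rw [setIntegral_const, smul_eq_mul, mul_comm]
      exact mul_le_mul_of_nonneg_left (measureReal_mono (Set.subset_univ _)) (by positivity)
    rw [← ha]
    linarith
  rw [hsame, op_eq] at *
  have hi : IntervalIntegrable (tl ν (ex w)) volume 0 u := Layer_intble _ _ _
  have e4 : (u : ℝ) * tl ν (ex w) x ≤ ∫ t in (0 : ℝ)..u, tl ν (ex w) t := by
    have e5 : ∫ t in (0 : ℝ)..u, tl ν (ex w) x = (u : ℝ) * tl ν (ex w) x := by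
      rw [intervalIntegral.integral_const, smul_eq_mul, sub_zero]
    rw [← e5]
    refine intervalIntegral.integral_mono_on hu0 intervalIntegrable_const hi fun t ht => ?_
    exact tl_anti _ hnn (ht.2.trans hu)
  have hB : 0 ≤ V - tl ν (ex w) x := by
    have := tl_le (ν₁ := ν) (ex w) hnn x
    linarith
  have e6 : (u : ℝ) * (V - tl ν (ex w) x) ≤ x * (V - tl ν (ex w) x) :=
    mul_le_mul_of_nonneg_right hu hB
  have e7 := mul_le_mul_of_nonneg_left hch hx0
  linarith

end Pool.Agent.Age
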