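import Pool.Agent.AgeTop.Est

/-!
# MP_87e96d_pr: two different measures with equal laws differ just below the maximum of their supports
-/

set_option autoImplicit false

namespace Pool.Agent.Age

open MeasureTheory

variable {R : ℝ} {ν₁ ν₂ : Measure (K R)} [IsFiniteMeasure ν₁] [IsFiniteMeasure ν₂]

/-- one half of the estimate of the difference of the Laplace transforms -/
theorem top_half (hR : 0 ≤ R) (h : GF ν₁ ν₂) (h1 : ν₁ ≠ 0) (h2 : ν₂ ≠ 0) {S : ℝ} (hS0 : 0 < S)
    (hSR : S ≤ R) (hS : tn ν₂ S = 0) (hpos : ∀ s, s < S → 0 < tn ν₂ s) {x : ℝ} (hx0 : 0 ≤ x)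
    (hxS : x < S)
    (heq : ν₁.restrict {u | x < (u : ℝ)} = ν₂.restrict {u | x < (u : ℝ)}) :
    ∃ C V₀ : ℝ, 0 ≤ C ∧ ∀ V, V₀ ≤ V → (∫ u, Real.exp (V * (u : ℝ)) ∂ν₁) -
      (∫ u, Real.exp (V * (u : ℝ)) ∂ν₂) ≤ C * Real.exp (V * (x - (S - x) / 2)) := by
  have hSx : 0 < S - x := by linarith
  obtain ⟨V₀, c, hV₀, hc, hZ⟩ := top_Z hR h2 hS0 hSR hS hpos (ε := (S - x) / 4) (by linarith)
    (by linarith)
  set n₁ : ℝ := ν₁.real Set.univ with hn₁
  set n₂ : ℝ := ν₂.real Set.univ with hn₂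
  have hn₁0 : 0 ≤ n₁ := measureReal_nonneg
  have hn₂0 : 0 ≤ n₂ := measureReal_nonneg
  refine ⟨x * n₁ * n₂ / c * (4 / (S - x)), V₀, by positivity, fun V hV => ?_⟩
  have hVpos : 0 < V := hV₀.trans_le hV
  obtain ⟨f, hf⟩ := exists_min (ν := ν₂) hR h2 hVpos
  have hineq := min_ineq hR h h1 h2 hVpos hf
  have hZf := hZ V hV f hf
  have hphi := fun u hu => top_phi hR h2 hVpos hf hx0 u hu
  set φ : C(K R, ℝ) := op kM ν₂ f with hφ
  set Z : ℝ := la ν₂ (ex φ) with hZdef
  have hZ0 : 0 < Z := la_ex_pos h2 φ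
  set δ : ℝ := x * (V / Z * Real.exp (V * x) * n₂) with hδ
  have hδ0 : 0 ≤ δ := by positivity
  set A : Set (K R) := {u | x < (u : ℝ)} with hA
  have hm : MeasurableSet A := Layer_set x
  set g : C(K R, ℝ) := ⟨fun u : K R => Real.exp (V * (u : ℝ)), by fun_prop⟩ with hg
  have hgi : ∀ (ν : Measure (K R)) [IsFiniteMeasure ν], Integrable (fun u : K R => Real.exp (V * (u : ℝ))) ν :=
    fun ν _ => integrable_cm ν g
  have hfi : ∀ (ν : Measure (K R)) [IsFiniteMeasure ν], Integrable (fun u : K R => ex φ u) ν :=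
    fun ν _ => integrable_cm ν _
  -- reduce to the part below `x`
  have hAeq1 : ∫ u in A, Real.exp (V * (u : ℝ)) ∂ν₁ = ∫ u in A, Real.exp (V * (u : ℝ)) ∂ν₂ := by
    rw [heq]
  have hAeq2 : ∫ u in A, ex φ u ∂ν₁ = ∫ u in A, ex φ u ∂ν₂ := by
    rw [heq]
  have s1 := integral_add_compl hm (hgi ν₁)
  have s2 := integral_add_compl hm (hgi ν₂)
  have s3 := integral_add_compl hm (hfi ν₁)
  have s4 := integral_add_compl hm (hfi ν₂)
  have hle : ∫ u in Aᶜ, ex φ u ∂ν₁ ≤ ∫ u in Aᶜ, ex φ u ∂ν₂ := by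
    have e1 : ∫ u, ex φ u ∂ν₁ ≤ ∫ u, ex φ u ∂ν₂ := hineq
    linarith
  have hup : ∫ u in Aᶜ, ex φ u ∂ν₂ ≤ ∫ u in Aᶜ, Real.exp (V * (u : ℝ)) ∂ν₂ := by
    refine setIntegral_mono_on (hfi ν₂).integrableOn (hgi ν₂).integrableOn hm.compl fun u hu => ?_
    rw [ex_apply]
    exact Real.exp_le_exp.mpr (hphi u (not_lt.mp hu)).1
  have hlo : (1 - δ) * ∫ u in Aᶜ, Real.exp (V * (u : ℝ)) ∂ν₁ ≤ ∫ u in Aᶜ, ex φ u ∂ν₁ := by
    rw [← integral_const_mul]
    refine setIntegral_mono_on ((hgi ν₁).const_mul _).integrableOn (hfi ν₁).integrableOn hm.compl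
      fun u hu => ?_
    rw [ex_apply]
    have e1 := (hphi u (not_lt.mp hu)).2
    have e2 : Real.exp (V * (u : ℝ) - δ) ≤ Real.exp (φ u) := Real.exp_le_exp.mpr e1
    refine le_trans ?_ e2
    rw [sub_eq_add_neg (V * (u : ℝ)), Real.exp_add, mul_comm]
    refine mul_le_mul_of_nonneg_left ?_ (Real.exp_pos _).le
    have := Real.add_one_le_exp (-δ)
    linarith
  have hbd : ∫ u in Aᶜ, Real.exp (V * (u : ℝ)) ∂ν₁ ≤ Real.exp (V * x) * n₁ := by
    have e1 : ∫ u in Aᶜ, Real.exp (V * (u : ℝ)) ∂ν₁ ≤ ∫ u in Aᶜ, Real.exp (V * x) ∂ν₁ := by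
      refine setIntegral_mono_on (hgi ν₁).integrableOn (integrable_const _).integrableOn hm.compl
        fun u hu => ?_
      exact Real.exp_le_exp.mpr (mul_le_mul_of_nonneg_left (not_lt.mp hu) hVpos.le)
    rw [setIntegral_const, smul_eq_mul, mul_comm] at e1
    exact e1.trans (mul_le_mul_of_nonneg_left (measureReal_mono (Set.subset_univ _))
      (Real.exp_pos _).le)
  have hmain : (∫ u, Real.exp (V * (u : ℝ)) ∂ν₁) - (∫ u, Real.exp (V * (u : ℝ)) ∂ν₂) ≤
      δ * (Real.exp (V * x) * n₁) := by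
    have e1 := mul_le_mul_of_nonneg_left hbd hδ0
    linarith
  refine hmain.trans ?_
  -- the size of `δ`
  have hVe : V ≤ 4 / (S - x) * Real.exp (V * ((S - x) / 4)) := by
    have e1 := Real.add_one_le_exp (V * ((S - x) / 4))
    have e2 : V * ((S - x) / 4) ≤ Real.exp (V * ((S - x) / 4)) := by linarith
    calc V = 4 / (S - x) * (V * ((S - x) / 4)) := by field_simp
      _ ≤ _ := mul_le_mul_of_nonneg_left e2 (by positivity)
  have hZi : 1 / Z ≤ 1 / c * Real.exp (-(V * (S - (S - x) / 4))) := by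
    rw [Real.exp_neg, ← one_div, one_div_mul_one_div]
    exact one_div_le_one_div_of_le (by positivity) hZf
  calc δ * (Real.exp (V * x) * n₁)
      = x * n₁ * n₂ * (Real.exp (V * x) * Real.exp (V * x)) * (V * (1 / Z)) := by
        rw [hδ]; ring
    _ ≤ x * n₁ * n₂ * (Real.exp (V * x) * Real.exp (V * x)) *
        (4 / (S - x) * Real.exp (V * ((S - x) / 4)) *
          (1 / c * Real.exp (-(V * (S - (S - x) / 4))))) := by
        refine mul_le_mul_of_nonneg_left ?_ (by positivity)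
        exact mul_le_mul hVe hZi (by positivity) (by positivity)
    _ = x * n₁ * n₂ / c * (4 / (S - x)) * (Real.exp (V * x) * Real.exp (V * x) *
          Real.exp (V * ((S - x) / 4)) * Real.exp (-(V * (S - (S - x) / 4)))) := by ring
    _ = x * n₁ * n₂ / c * (4 / (S - x)) * Real.exp (V * (x - (S - x) / 2)) := by
        rw [← Real.exp_add, ← Real.exp_add, ← Real.exp_add]
        congr 2
        ring

/-- the step down -/
theorem top_step (hR : 0 ≤ R) (h : GF ν₁ ν₂) (h1 : ν₁ ≠ 0) (h2 : ν₂ ≠ 0) {S : ℝ} (hS0 : 0 < S)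
    (hSR : S ≤ R) (hS1 : tn ν₁ S = 0) (hS2 : tn ν₂ S = 0) (hp1 : ∀ s, s < S → 0 < tn ν₁ s)
    (hp2 : ∀ s, s < S → 0 < tn ν₂ s) {x : ℝ} (hx0 : 0 ≤ x) (hxS : x < S)
    (heq : ν₁.restrict {u | x < (u : ℝ)} = ν₂.restrict {u | x < (u : ℝ)}) :
    ν₁.restrict {u | x - (S - x) / 2 < (u : ℝ)} = ν₂.restrict {u | x - (S - x) / 2 < (u : ℝ)} := by
  obtain ⟨C, V₀, hC, hv⟩ := top_half hR h h1 h2 hS0 hSR hS2 hp2 hx0 hxS heq
  obtain ⟨C', V₀', hC', hv'⟩ := top_half hR h.symm h2 h1 hS0 hSR hS1 hp1 hx0 hxS heq.symm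
  refine lap (C := C + C') (v₁ := max V₀ V₀') (by linarith) heq fun V hV => ?_
  have e1 := hv V ((le_max_left _ _).trans hV)
  have e2 := hv' V ((le_max_right _ _).trans hV)
  have e3 : 0 ≤ Real.exp (V * (x - (S - x) / 2)) := (Real.exp_pos _).le
  have e4 := mul_nonneg hC e3
  have e5 := mul_nonneg hC' e3
  rw [abs_le, add_mul]
  constructor <;> linarith

/-- equality above `x` from equality of the tails -/
theorem top_restrict {x : ℝ} (ht : ∀ t, x ≤ t → tn ν₁ t = tn ν₂ t) :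
    ν₁.restrict {u | x < (u : ℝ)} = ν₂.restrict {u | x < (u : ℝ)} := by
  have key : ∀ t, x ≤ t → ν₁ {u : K R | t < (u : ℝ)} = ν₂ {u : K R | t < (u : ℝ)} := by
    intro t h
    have h1 := ht t h
    unfold tn at h1
    exact (measureReal_eq_measureReal_iff).mp h1
  refine ext_of_generate_finite (Set.range Set.Ioi) ?_ isPiSystem_Ioi ?_ ?_
  · rw [← borel_eq_generateFrom_Ioi]
    exact BorelSpace.measurable_eq
  · rintro s ⟨a, rfl⟩
    rw [Measure.restrict_apply measurableSet_Ioi, Measure.restrict_apply measurableSet_Ioi]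
    have h2 : Set.Ioi a ∩ {u : K R | x < (u : ℝ)} = {u : K R | max (a : ℝ) x < (u : ℝ)} := by
      ext u
      simp only [Set.mem_inter_iff, Set.mem_Ioi, Set.mem_ofPred_eq, max_lt_iff]
      rfl
    rw [h2]
    exact key _ (le_max_right _ _)
  · rw [Measure.restrict_apply_univ, Measure.restrict_apply_univ]
    exact key x le_rfl

/-- `N` vanishes where the tail vanishes -/
theorem top_N (ρ : Measure ℝ) [IsProbabilityMeasure ρ] (h0 : ρ (Set.Iio 0) = 0) (t : ℝ)
    (h : N ρ t = 0) : ρ (Set.Ioi t) = 0 := by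
  have hae : ∀ᵐ u ∂ρ, (0 : ℝ) ≤ u := by
    rw [ae_iff]
    convert h0 using 2
    ext u
    simp
  have hm : Measurable (fun s : ℝ => Real.exp (-∫ u, min s u ∂ρ)) := by
    have h : StronglyMeasurable (Function.uncurry fun s u : ℝ => min s u) :=
      (measurable_fst.min measurable_snd).stronglyMeasurable
    exact Real.measurable_exp.comp (h.integral_prod_right (ν := ρ)).measurable.neg
  have hi : Integrable (fun s : ℝ => Real.exp (-∫ u, min s u ∂ρ)) ρ := by
    refine Integrable.of_bound hm.aestronglyMeasurable 1 ?_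
    filter_upwards [hae] with s hs
    rw [Real.norm_eq_abs, abs_of_pos (Real.exp_pos _), Real.exp_le_one_iff, neg_nonpos]
    refine integral_nonneg_of_ae ?_
    filter_upwards [hae] with u hu
    exact le_min hs hu
  unfold N at h
  rw [integral_eq_zero_iff_of_nonneg (fun s => (Real.exp_pos _).le) hi.integrableOn] at h
  have h1 : ∀ᵐ s ∂(ρ.restrict (Set.Ioi t)), False := by
    filter_upwards [h] with s hs
    exact absurd hs (Real.exp_pos _).ne'
  rw [Filter.eventually_false_iff_eq_bot, ae_eq_bot, Measure.restrict_eq_zero] at h1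
  exact h1

/-- Two different measures of bounded support with the same cluster size law have the same maximum `S > 0` of
the support, the functions `N` cross infinitely often just below `S`, and the distribution functions
are not both left analytic at `S`. -/
theorem main_top (π π' : Measure ℝ) [IsProbabilityMeasure π] [IsProbabilityMeasure π']
    (h0 : π (Set.Iio 0) = 0) (h0' : π' (Set.Iio 0) = 0) (R : ℝ) (hRπ : π (Set.Ioi R) = 0)
    (hRπ' : π' (Set.Ioi R) = 0) (h : ∀ k, v π k = v π' k) (hne : π ≠ π') :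
    ∃ S > 0, π (Set.Ioi S) = 0 ∧ π' (Set.Ioi S) = 0 ∧
      (∀ s < S, 0 < π (Set.Ioi s)) ∧ (∀ s < S, 0 < π' (Set.Ioi s)) ∧
      ¬ (LeftAnalyticAt (fun t => π.real (Set.Ioi t)) S ∧
        LeftAnalyticAt (fun t => π'.real (Set.Ioi t)) S) ∧
      ∀ ε > 0,
        (∃ t, S - ε < t ∧ t < S ∧ N π t < N π' t) ∧ ∃ t, S - ε < t ∧ t < S ∧ N π' t < N π t := by
  obtain ⟨x, hx, hla, htop, hosc⟩ := main_local π π' h0 h0' R hRπ hRπ' h hne
  have hR : 0 ≤ R := by
    by_contra hlt
    have hlt' : R < 0 := not_le.mp hlt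
    have h1 : π Set.univ = 0 := by
      have h2 : (Set.univ : Set ℝ) ⊆ Set.Iio 0 ∪ Set.Ioi R := fun y _ => by
        rcases lt_or_ge y 0 with hy | hy
        · exact Or.inl hy
        · exact Or.inr (lt_of_lt_of_le hlt' hy)
      exact le_antisymm ((measure_mono h2).trans ((measure_union_le _ _).trans (by rw [h0, hRπ]; simp)))
        bot_le
    rw [measure_univ] at h1
    exact one_ne_zero h1
  have hgf : GF (nuK R π) (nuK R π') := by
    intro z hz0 hz1
    obtain ⟨w₁, h1, h2⟩ := gf_exists R π h0 hRπ z hz0 hz1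
    obtain ⟨w₂, h3, h4⟩ := gf_exists R π' h0' hRπ' z hz0 hz1
    refine ⟨w₁, w₂, h1, h3, ?_⟩
    rw [h2, h4]
    simp only [h]
  have hu1 := nuK_univ (R := R) π h0 hRπ
  have hu2 := nuK_univ (R := R) π' h0' hRπ'
  have hn1 : nuK R π ≠ 0 := by
    intro h1
    have h2 := v_one_pos π h0
    rw [← hu1, h1] at h2
    simp at h2
  have hn2 : nuK R π' ≠ 0 := by
    intro h1
    have h2 := v_one_pos π' h0'
    rw [← hu2, h1] at h2
    simp at h2
  have ht1 : ∀ t, 0 ≤ t → tn (nuK R π) t = N π t := fun t ht => tn_nuK π h0 hR hRπ t ht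
  have ht2 : ∀ t, 0 ≤ t → tn (nuK R π') t = N π' t := fun t ht => tn_nuK π' h0' hR hRπ' t ht
  -- there is mass above `0`
  have hpos0 : 0 < tn (nuK R π') 0 := by
    rcases (tn_nonneg (ν := nuK R π') 0).lt_or_eq with h3 | h3
    · exact h3
    · exfalso
      have h4 := topEq hR hgf hn1 hn2 le_rfl hR h3.symm
      obtain ⟨⟨t, e1, e2, e3⟩, -⟩ := hosc x hx
      have ht0 : 0 ≤ t := by linarith
      rw [← ht1 t ht0, ← ht2 t ht0] at e3
      have e4 := tn_anti (ν := nuK R π') ht0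
      have e5 := tn_nonneg (ν := nuK R π) t
      linarith
  obtain ⟨S, hS0, hSR, hS1, hS2, hp1, hp2⟩ := exists_top hR hgf hn1 hn2 hpos0
  have hxS : x = S := by
    rcases lt_trichotomy x S with hlt | heq | hgt
    · exfalso
      have h1 := top_restrict (ν₁ := nuK R π) (ν₂ := nuK R π') (fun t ht => by
        rw [ht1 t (hx.le.trans ht), ht2 t (hx.le.trans ht)]
        exact htop t ht)
      have h2 := top_step hR hgf hn1 hn2 hS0 hSR hS1 hS2 hp1 hp2 hx.le hlt h1
      obtain ⟨⟨t, e1, e2, e3⟩, -⟩ := hosc (min x ((S - x) / 2)) (lt_min hx (by linarith))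
      have e4 := min_le_left x ((S - x) / 2)
      have e5 := min_le_right x ((S - x) / 2)
      have ht0 : 0 ≤ t := by linarith
      have h3 : tn (nuK R π) t = tn (nuK R π') t := by
        have hset : {u : K R | t < (u : ℝ)} ⊆ {u : K R | x - (S - x) / 2 < (u : ℝ)} := by
          intro u hu
          have hu' : t < (u : ℝ) := hu
          change x - (S - x) / 2 < (u : ℝ)
          linarith
        unfold tn
        rw [measureReal_def, measureReal_def, ← Measure.restrict_eq_self (nuK R π) hset,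
          ← Measure.restrict_eq_self (nuK R π') hset, h2]
      rw [ht1 t ht0, ht2 t ht0] at h3
      linarith
    · exact heq
    · exfalso
      obtain ⟨⟨t, e1, e2, e3⟩, -⟩ := hosc (x - S) (by linarith)
      have ht0 : 0 ≤ t := by linarith
      rw [← ht1 t ht0, ← ht2 t ht0] at e3
      have e4 := tn_anti (ν := nuK R π') (show S ≤ t by linarith)
      have e5 := tn_nonneg (ν := nuK R π) t
      linarith
  subst hxS
  have hgood : ∀ (ρ : Measure ℝ) [IsProbabilityMeasure ρ], (∀ t, 0 ≤ t → tn (nuK R ρ) t = N ρ t) →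
      (∀ s, s < x → 0 < tn (nuK R ρ) s) → ∀ s < x, 0 < ρ (Set.Ioi s) := by
    intro ρ _ ht hp s hs
    have h1 : 0 < ρ (Set.Ioi (max s 0)) := by
      have h2 := hp (max s 0) (max_lt hs hx)
      rw [ht _ (le_max_right _ _)] at h2
      rw [pos_iff_ne_zero]
      intro h3
      unfold N at h2
      rw [Measure.restrict_eq_zero.mpr h3, integral_zero_measure] at h2
      exact lt_irrefl _ h2
    exact h1.trans_le (measure_mono (Set.Ioi_subset_Ioi (le_max_left _ _)))
  refine ⟨x, hx, top_N π h0 x ?_, top_N π' h0' x ?_, hgood π ht1 hp1, hgood π' ht2 hp2, hla, hosc⟩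
  · rw [← ht1 x hx.le]
    exact hS1
  · rw [← ht2 x hx.le]
    exact hS2

end Pool.Agent.Age
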